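import Pool.Agent.Run7.h38.KF.Conv

/-!
# Products of copies of two varieties
-/

set_option linter.unusedSectionVars false

open CategoryTheory AlgebraicGeometry TensorProduct

universe u

namespace Run7.h38.KF

open Module
open Pool.Agent.H914 Pool.Agent.H914.VarClass Pool.Agent.H914.VarClass.Obj
  Pool.Agent.H914.WeilCohomology
open Pool.Agent.Y121.AHS
open Pool.Agent.Y133.Half
open Pool.Agent.N996.BP (ce)
open Pool.Agent.N996.BP.Geo
open Pool.Agent.N996.FP

variable {k : Type u} [Field k] {𝒱 : VarClass k} {ops : CycleOps 𝒱}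

set_option maxHeartbeats 400000

section W

variable {W : WeilCohomology.{u, 0} ops} {X A P Y Z : 𝒱.Obj}

lemma ce_inl (n m : ℕ) (i : Fin (n + 1)) :
    ce n (m + 1) (Sum.inl i) = (ce n m (Sum.inl i)).castSucc := by
  apply Fin.ext
  simp [ce]

lemma ce_inr (n m : ℕ) (i : Fin (m + 1)) :
    ce n (m + 1) (Sum.inr i.castSucc) = (ce n m (Sum.inr i)).castSucc := by
  apply Fin.ext
  simp [ce]

lemma ce_last (n m : ℕ) : ce n m (Sum.inr (Fin.last m)) = Fin.last (n + m + 1) := by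
  apply Fin.ext
  simp [ce]
  omega

lemma f₁_succ (n m : ℕ) : f₁ P n (m + 1) = pfst P (n + m + 1) ≫ f₁ P n m := by
  apply hom_ext_prj
  intro i
  rw [Category.assoc, f₁, f₁, liftN_prj, liftN_prj, ce_inl]
  exact prj_castSucc _ _

lemma f₂_succ_fst (n m : ℕ) : f₂ P n (m + 1) ≫ pfst P m = pfst P (n + m + 1) ≫ f₂ P n m := by
  apply hom_ext_prj
  intro i
  rw [Category.assoc, Category.assoc, ← prj_castSucc, f₂, f₂, liftN_prj, liftN_prj, ce_inr]
  exact prj_castSucc _ _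

lemma f₂_succ_snd (n m : ℕ) : f₂ P n (m + 1) ≫ psnd P m = psnd P (n + m + 1) := by
  rw [← prj_last, f₂, liftN_prj, ce_last]
  exact prj_last _

lemma f₁_zero (n : ℕ) : f₁ P n 0 = pfst P n := by
  apply hom_ext_prj
  intro i
  rw [f₁, liftN_prj, ← prj_castSucc]
  congr 1

lemma f₂_zero (n : ℕ) : f₂ P n 0 = psnd P n := by
  have h1 : f₂ P n 0 = f₂ P n 0 ≫ prj P 0 0 := by
    rw [prj_zero]
    exact (Category.comp_id _).symm
  rw [h1, f₂, liftN_prj, ← prj_last]
  congr 1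

lemma tr_f (n m : ℕ) : ∀ (a : W.H (pw P n)) (b : W.H (pw P m)),
    W.tr (pw P (n + m + 1)) (W.map (f₁ P n m) a * W.map (f₂ P n m) b) =
      W.tr (pw P n) a * W.tr (pw P m) b := by
  induction m with
  | zero =>
    intro a b
    rw [f₁_zero, f₂_zero]
    exact W.tr_prod _ _
  | succ m ih =>
    intro a b
    refine xp_induction (X := pw P m) (Y := P) (p := fun b => W.tr (pw P (n + (m + 1) + 1))
      (W.map (f₁ P n (m + 1)) a * W.map (f₂ P n (m + 1)) b) =
        W.tr (pw P n) a * W.tr (pw P (m + 1)) b) ?_ ?_ b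
    · intro (x : W.H (pw P (m + 1))) (y : W.H (pw P (m + 1))) hx hy
      have hx' : W.tr (pw P (n + (m + 1) + 1)) (W.map (f₁ P n (m + 1)) a *
        W.map (f₂ P n (m + 1)) x) = W.tr (pw P n) a * W.tr (pw P (m + 1)) x := hx
      have hy' : W.tr (pw P (n + (m + 1) + 1)) (W.map (f₁ P n (m + 1)) a *
        W.map (f₂ P n (m + 1)) y) = W.tr (pw P n) a * W.tr (pw P (m + 1)) y := hy
      have e : W.tr (pw P (n + (m + 1) + 1)) (W.map (f₁ P n (m + 1)) a *
          W.map (f₂ P n (m + 1)) (x + y)) = W.tr (pw P n) a * W.tr (pw P (m + 1)) (x + y) := by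
        rw [map_add, mul_add, map_add, hx', hy', map_add, mul_add]
      exact e
    · intro _ _ x _ y _
      have h1 : W.map (f₂ P n (m + 1)) (xp W x y) = W.map (pfst P (n + m + 1))
          (W.map (f₂ P n m) x) * W.map (psnd P (n + m + 1)) y := by
        have h2 : (xp W x y : W.H (pw P (m + 1))) =
          W.map (pfst P m) x * W.map (psnd P m) y := rfl
        rw [h2, map_mul (W.map (f₂ P n (m + 1))), ← W.map_comp, ← W.map_comp, f₂_succ_fst,
          f₂_succ_snd, W.map_comp]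
      rw [h1, f₁_succ, W.map_comp, ← mul_assoc, ← map_mul]
      have h3 : W.tr (pw P (n + (m + 1) + 1)) (W.map (pfst P (n + m + 1))
          (W.map (f₁ P n m) a * W.map (f₂ P n m) x) * W.map (psnd P (n + m + 1)) y) =
            W.tr (pw P (n + m + 1)) (W.map (f₁ P n m) a * W.map (f₂ P n m) x) * W.tr P y :=
        W.tr_prod _ _
      have h4 : W.tr (pw P (m + 1)) (xp W x y) = W.tr (pw P m) x * W.tr P y := W.tr_prod _ _
      rw [h3, ih, h4, mul_assoc]

/-- There is a class on a power of `P` with push-forward one. -/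
def Dom (W : WeilCohomology.{u, 0} ops) (P Y : 𝒱.Obj) : Prop :=
  ∃ (N : ℕ) (f : pw P N ⟶ Y) (a : ℕ) (w : W.H (pw P N)), w ∈ (algSys W).C (pw P N) ∧
    w ∈ W.gr (pw P N) (2 * a) ∧ W.push f w = 1

lemma push_one_iff {f : X ⟶ Y} {w : W.H X} :
    W.push f w = 1 ↔ ∀ c, W.tr X (w * W.map f c) = W.tr Y c := by
  constructor
  · intro h c
    rw [← W.tr_push, h, one_mul]
  · intro h
    apply W.tr_ext
    intro c
    rw [W.tr_push, h, one_mul]

lemma Dom.prod (hY : Dom W P Y) (hZ : Dom W P Z) : Dom W P (Y.prod Z) := by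
  obtain ⟨n, f, a, w, h1, h2, h3⟩ := hY
  obtain ⟨m, g, b, v, h4, h5, h6⟩ := hZ
  refine ⟨n + m + 1, Obj.lift (f₁ P n m ≫ f) (f₂ P n m ≫ g), a + b,
    W.map (f₁ P n m) w * W.map (f₂ P n m) v, (algSys W).mul ((algSys W).map _ h1)
      ((algSys W).map _ h4), ?_, ?_⟩
  · have h7 := W.mul_mem (W.map_mem (f₁ P n m) h2) (W.map_mem (f₂ P n m) h5)
    rwa [← mul_add] at h7
  · rw [push_one_iff] at h3 h6 ⊢
    intro c
    refine xp_induction (p := fun c => W.tr (pw P (n + m + 1))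
      (W.map (f₁ P n m) w * W.map (f₂ P n m) v *
        W.map (Obj.lift (f₁ P n m ≫ f) (f₂ P n m ≫ g)) c) = W.tr (Y.prod Z) c) ?_ ?_ c
    · intro x y hx hy
      rw [map_add, mul_add, map_add, hx, hy, map_add]
    · intro _ _ x _ y _
      have h7 : W.map (Obj.lift (f₁ P n m ≫ f) (f₂ P n m ≫ g)) (xp W x y) =
          W.map (f₁ P n m) (W.map f x) * W.map (f₂ P n m) (W.map g y) := by
        rw [xp, map_mul, ← W.map_comp, ← W.map_comp, Obj.lift_fst, Obj.lift_snd, W.map_comp,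
          W.map_comp]
      have h8 : W.map (f₁ P n m) w * W.map (f₂ P n m) v *
          (W.map (f₁ P n m) (W.map f x) * W.map (f₂ P n m) (W.map g y)) =
            W.map (f₁ P n m) (w * W.map f x) * W.map (f₂ P n m) (v * W.map g y) := by
        rw [map_mul, map_mul (W.map (f₂ P n m)), mul_assoc, mul_assoc,
          ← mul_assoc (W.map (f₂ P n m) v), ← mul_assoc (W.map (f₁ P n m) (W.map f x)),
          PH.even_comm (PH.map _ ((algSys W).even h4)) (W.map (f₁ P n m) (W.map f x)), mul_assoc]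
      rw [h7, h8, tr_f, h3, h6, tr_xp]

/-- The cohomology comes from powers. -/
lemma Dom.algebraic (hY : Dom W P Y) (rat : ∀ r : W.K, ∃ q : ℚ, (q : W.K) = r)
    (hex : ∀ (Z : 𝒱.Obj) (j : ℕ) (c : W.H Z), c ∈ (algSys W).C Z → c ∈ W.gr Z (2 * j) →
      ∃ z, Z.IsCyc j z ∧ W.cl Z z = c) : FromPowers W P Y := by
  obtain ⟨N, f, a, w, h1, h2, h3⟩ := hY
  obtain ⟨u, hu⟩ : ∃ u, u = W.push (Obj.lift f (𝟙 (pw P N))) 1 := ⟨_, rfl⟩
  obtain ⟨v, hv⟩ : ∃ v, v = W.push (Obj.lift (𝟙 (pw P N)) f) w := ⟨_, rfl⟩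
  have hu1 : u ∈ (algSys W).C (Y.prod (pw P N)) := by
    rw [hu]; exact (algSys W).push _ ((algSys W).one _)
  have hv1 : v ∈ (algSys W).C ((pw P N).prod Y) := by
    rw [hv]; exact (algSys W).push _ h1
  have hu2 : u ∈ W.gr (Y.prod (pw P N)) (2 * Y.dim) := by
    have h4 := W.push_mem (Obj.lift f (𝟙 (pw P N))) (W.one_mem (pw P N))
    have e : ((0 : ℕ) : ℤ) + 2 * (((Y.prod (pw P N)).dim : ℤ) - (pw P N).dim) =
        ((2 * Y.dim : ℕ) : ℤ) := by
      rw [dim_prod]; push_cast; ring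
    rw [e, grZ_natCast] at h4
    rw [hu]; exact h4
  have hv2 : v ∈ W.gr ((pw P N).prod Y) (2 * (a + Y.dim)) := by
    have h4 := W.push_mem (Obj.lift (𝟙 (pw P N)) f) h2
    have e : ((2 * a : ℕ) : ℤ) + 2 * ((((pw P N).prod Y).dim : ℤ) - (pw P N).dim) =
        ((2 * (a + Y.dim) : ℕ) : ℤ) := by
      rw [dim_prod]; push_cast; ring
    rw [e, grZ_natCast] at h4
    rw [hv]; exact h4
  obtain ⟨zu, hzu, hzu'⟩ := hex _ _ _ hu1 hu2
  obtain ⟨zv, hzv, hzv'⟩ := hex _ _ _ hv1 hv2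
  refine ⟨1, fun _ => N, fun _ => Y.dim, fun _ => a + Y.dim, fun _ => zu, fun _ => zv,
    fun _ => ⟨hzu, hzv⟩, fun y => ?_⟩
  rw [Fin.sum_univ_one]
  change W.corr (W.cl _ zv) (W.corr (W.cl _ zu) y) = y
  rw [hzu', hzv', corr_apply, corr_apply, hu, hv]
  have k1 : W.push (snd Y (pw P N)) (W.push (Obj.lift f (𝟙 (pw P N))) 1 *
      W.map (fst Y (pw P N)) y) = W.map f y := by
    rw [← W.push_mul, ← W.push_comp, ← W.map_comp, Obj.lift_snd, Obj.lift_fst, W.push_id,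
      one_mul]
  have k2 : ∀ x, W.push (snd (pw P N) Y) (W.push (Obj.lift (𝟙 (pw P N)) f) w *
      W.map (fst (pw P N) Y) x) = W.push f (w * x) := by
    intro x
    rw [← W.push_mul, ← W.push_comp, ← W.map_comp, Obj.lift_snd, Obj.lift_fst, W.map_id]
  rw [k1, k2, W.push_mul, h3, one_mul]

end W

section T

variable {T : HodgeTheory ops} {X A Y : 𝒱.Obj}

lemma exists_cyc' (T : HodgeTheory ops) (Z : 𝒱.Obj) (j : ℕ) (c : T.W.H Z)
    (hc : c ∈ (algSys T.W).C Z) (hj : c ∈ T.W.gr Z (2 * j)) :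
    ∃ z, Z.IsCyc j z ∧ T.W.cl Z z = c :=
  Pool.Agent.N996.BP.exists_cyc (T := T) (spanCycles_of_algSpan hc hj)

lemma cl_mem_alg {W : WeilCohomology.{u, 0} ops} {Z : 𝒱.Obj} {j : ℕ} {z : Z.Cycles}
    (hz : Z.IsCyc j z) : W.cl Z z ∈ (algSys W).C Z :=
  Submodule.subset_span (Set.mem_iUnion.2 ⟨j, z, hz, rfl⟩)

/-- A class of degree one which is algebraic. -/
lemma exists_alg_pt (T : Pool.Agent.Y121.AH.HodgeTheory ops) (X : 𝒱.Obj)
    [Nontrivial (T.W.H X)] : ∃ l ∈ (algSys T.W).C X, l ∈ T.W.gr X (2 * X.dim) ∧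
      T.W.tr X l = 1 := by
  obtain ⟨E, hE⟩ := T.dec.polar X
  have hE1 : Pool.Agent.Y121.AH.IsHodge T X 1 (T.W.cl X E) :=
    Pool.Agent.Y121.AH.IsHodge.cl hE.1
  have h1 : (1 : T.W.H X) ∈ T.W.gr X (2 * 0) := T.W.one_mem X
  have h2 : Pool.Agent.Y121.AH.IsHodge T X 0 (1 : T.W.H X) := by
    rw [← T.W.cl_fund X]; exact Pool.Agent.Y121.AH.IsHodge.cl X.V.fundCycle_mem
  have h3 : T.W.cl X E ^ (X.dim - 2 * 0 + 1) * (1 : T.W.H X) = 0 := by
    have h4 := (hE1.pow (X.dim - 2 * 0 + 1)).1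
    rw [T.W.gr_eq_bot X _ (by omega)] at h4
    rw [(Submodule.mem_bot _).1 h4, zero_mul]
  obtain ⟨r, hr, h4⟩ := hE.2.2 0 (by omega) 1 h1 h2.2 h3 one_ne_zero
  rw [pow_zero, one_mul, mul_one, mul_one, mul_zero, Nat.sub_zero] at h4
  have hr0 : (r : T.W.K) ≠ 0 := by exact_mod_cast hr.ne'
  have h5 := (hE1.pow X.dim).1
  rw [one_mul] at h5
  refine ⟨(r : T.W.K)⁻¹ • T.W.cl X E ^ X.dim, Submodule.smul_mem _ _
    (KG.pow_mem (S := algSys T.W) (cl_mem_alg hE.1) _), Submodule.smul_mem _ _ h5, ?_⟩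
  rw [map_smul, h4, smul_eq_mul, inv_mul_cancel₀ hr0]

lemma dom_left {T : Pool.Agent.Y121.AH.HodgeTheory ops} {X A : 𝒱.Obj}
    [Nontrivial (T.W.H A)] : Dom T.W (X.prod A) X := by
  obtain ⟨l, h1, h2, h3⟩ := exists_alg_pt T A
  refine ⟨0, fst X A, A.dim, T.W.map (snd X A) l, (algSys T.W).map _ h1, T.W.map_mem _ h2, ?_⟩
  have h4 := push_fst (W := T.W) (X := X) (Y := A) 1 l ((algSys T.W).even h1)
  rw [xp, map_one, one_mul, h3, one_smul] at h4
  exact h4

lemma dom_right {T : Pool.Agent.Y121.AH.HodgeTheory ops} {X A : 𝒱.Obj}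
    [Nontrivial (T.W.H X)] : Dom T.W (X.prod A) A := by
  obtain ⟨l, h1, h2, h3⟩ := exists_alg_pt T X
  refine ⟨0, snd X A, X.dim, T.W.map (fst X A) l, (algSys T.W).map _ h1, T.W.map_mem _ h2, ?_⟩
  have h4 := push_snd' (W := T.W) (X := X) (Y := A) l
  rw [h3, one_smul] at h4
  exact h4

/-- The products of copies of `X` and `A` come from powers of `X × A`. -/
theorem ProductOf.fromPowers (hX : Nontrivial (T.W.H X)) (hA : Nontrivial (T.W.H A))
    (h : ProductOf X A Y) : FromPowers T.W (X.prod A) Y := by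
  have h1 : Dom T.W (X.prod A) Y := by
    induction h with
    | left =>
      have : Nontrivial ((toH T).W.H A) := hA
      exact dom_left (T := toH T)
    | right =>
      have : Nontrivial ((toH T).W.H X) := hX
      exact dom_right (T := toH T)
    | prod _ _ ih ih' => exact ih.prod ih'
  exact h1.algebraic T.rat (exists_cyc' T)

end T

end Run7.h38.KF
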