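import Pool.Agent.Run7.h38.KF.Prod

/-!
# The final theorems
-/

set_option linter.unusedSectionVars false

open CategoryTheory AlgebraicGeometry TensorProduct

universe u

namespace Run7.h38.KF

open Module
open Pool.Agent.H914 Pool.Agent.H914.VarClass Pool.Agent.H914.VarClass.Obj
  Pool.Agent.H914.WeilCohomology
open Pool.Agent.Y121.AHS
open Pool.Agent.Y133.Half
open Pool.Agent.Y121.AH (hodgePred CW em em_zero)
open Pool.Agent.N996.BP (IsPHS)
open Pool.Agent.N996.BP.Geo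
open Pool.Agent.N996.FP
open Run7.h38.KG (tc mem_tc K3A KSA central)

variable {k : Type u} [Field k] {𝒱 : VarClass k} {ops : CycleOps 𝒱}

set_option maxHeartbeats 400000

section AH

variable {T : Pool.Agent.Y121.AH.HodgeTheory ops} {X A Y : 𝒱.Obj}

/-- The degree of the multiplication. -/
lemma corr_deg {γ : T.W.H ((X.prod A).prod A)} {r : ℕ}
    (hγ : γ ∈ T.W.gr ((X.prod A).prod A) (2 * (A.dim + r))) (hX : X.dim = 2 * r) {t : T.W.H X}
    (ht : t ∈ T.W.gr X (2 * r)) {v : T.W.H A} (hv : v ∈ T.W.gr A 1) :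
    T.W.corr γ (xp T.W t v) ∈ T.W.gr A 1 := by
  have h1 : xp T.W t v ∈ T.W.gr (X.prod A) (2 * r + 1) :=
    T.W.mul_mem (T.W.map_mem _ ht) (T.W.map_mem _ hv)
  have h2 := T.W.push_mem (snd (X.prod A) A)
    (T.W.mul_mem hγ (T.W.map_mem (fst (X.prod A) A) h1))
  rw [corr_apply]
  have e : ((2 * (A.dim + r) + (2 * r + 1) : ℕ) : ℤ) +
      2 * ((A.dim : ℤ) - ((X.prod A).prod A).dim) = ((1 : ℕ) : ℤ) := by
    rw [dim_prod, dim_prod, hX]; push_cast; ring
  rw [e, grZ_natCast] at h2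
  exact h2

lemma gam_hodge {δ : T.W.H A} (hδ : Pool.Agent.Y121.AH.IsHodge T A 1 δ) (hA0 : 0 < A.dim)
    {r : ℕ} {κ : T.W.H ((X.prod A).prod A)}
    (hκ : Pool.Agent.Y121.AH.IsHodge T ((X.prod A).prod A) (r + 1) κ) :
    Pool.Agent.Y121.AH.IsHodge T ((X.prod A).prod A) (A.dim + r)
      (gam T.W (δ ^ (A.dim - 1)) κ) := by
  have h1 := hδ.pow (A.dim - 1)
  rw [one_mul] at h1
  have h2 := hκ.mul ((h1.map (snd X A)).map (fst (X.prod A) A))
  have e : r + 1 + (A.dim - 1) = A.dim + r := by omega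
  rwa [e] at h2

/-- **The theorem for families of classes.** -/
theorem main_AH {φ : LinearMap.BilinForm T.W.K (T.W.H X)}
    {ψ : LinearMap.BilinForm T.W.K (T.W.H A)} {r : ℕ} {a a' c : T.W.K} {δ : T.W.H A}
    {κ κ' : T.W.H ((X.prod A).prod A)}
    (hX : X.dim = 2 * r) (hK3 : K3A T X φ r a) (hψ : IsPHS (tauT T) (Fx T A) ψ A.dim)
    (hgen : Algebra.adjoin T.W.K (T.W.gr A 1 : Set (T.W.H A)) = ⊤) (hA0 : 0 < A.dim)
    (hnX : Nontrivial (T.W.H X)) (hnA : Nontrivial (T.W.H A))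
    (hδ : Pool.Agent.Y121.AH.IsHodge T A 1 δ)
    (hd : ∀ x ∈ T.W.gr A 1, ∀ y ∈ T.W.gr A 1,
      ψ x y = a' * T.W.tr A (δ ^ (A.dim - 1) * x * y))
    (hκ : Pool.Agent.Y121.AH.IsHodge T ((X.prod A).prod A) (r + 1) κ) (hc : c ≠ 0)
    (hcl : ∀ t ∈ tc T X, ∀ v ∈ T.W.gr A 1, T.W.corr κ (xp T.W t (δ ^ (A.dim - 1) *
      T.W.corr κ (xp T.W t (δ ^ (A.dim - 1) * v)))) = (c * T.W.tr X (t * t)) • v)
    (hκ' : Pool.Agent.Y121.AH.IsHodge T ((X.prod A).prod A) (r + 1) κ')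
    (hκκ : ∀ t ∈ tc T X, ∀ v ∈ T.W.gr A 1, T.W.corr κ' (xp T.W t (δ ^ (A.dim - 1) * v)) =
      T.W.corr κ (xp T.W t (δ ^ (A.dim - 1) * v)))
    {S : Sys T.W} (hS : ∀ Y, S.C Y ≤ (hodgePred T).sp Y)
    (hSX : (hodgePred T).sp X ≤ S.C X)
    (hSA : ∀ c, Pool.Agent.Y121.AH.IsHodge T (A.prod A) 1 c → c ∈ S.C (A.prod A))
    (hSκ : κ' ∈ S.C ((X.prod A).prod A)) (n : ℕ) :
    (hodgePred T).sp (pw (X.prod A) n) ≤ S.C (pw (X.prod A) n) := by
  have hdz : δ ^ (A.dim - 1) ∈ T.W.gr A (2 * (A.dim - 1)) := by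
    have h1 := (hδ.pow (A.dim - 1)).1
    rwa [one_mul] at h1
  have hev : δ ^ (A.dim - 1) ∈ PH T.W A 0 := KG.dz_ev hdz
  have hdS : δ ^ (A.dim - 1) ∈ S.C A := KG.pow_mem (KG.deg_one_mem hSA hδ) _
  have h1 : KSA T X A r c (gam T.W (δ ^ (A.dim - 1)) κ') :=
    { hodge := gam_hodge hδ hA0 hκ'
      ne := hc
      cliff := fun t ht v hv => by
        have hw : T.W.corr κ (xp T.W t (δ ^ (A.dim - 1) * v)) ∈ T.W.gr A 1 := by
          rw [← gam_corr T.W hev]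
          exact corr_deg (gam_hodge hδ hA0 hκ).1 hX (hK3.deg t ht) hv
        rw [gam_corr T.W hev, gam_corr T.W hev, hκκ t ht v hv, hκκ t ht _ hw]
        exact hcl t ht v hv }
  exact central hS hX hK3 hψ hgen hA0 hδ hd h1 hSX hSA
    (S.mul hSκ (S.map _ (S.map _ hdS))) n

/-- The varieties whose cohomology comes from powers. -/
theorem from_le {S : Sys T.W} (hcyc : ∀ (Y : 𝒱.Obj) (j : ℕ) (z : Y.Cycles), Y.IsCyc j z →
    T.W.cl Y z ∈ S.C Y) {P : 𝒱.Obj}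
    (h : ∀ n, (hodgePred T).sp (pw P n) ≤ S.C (pw P n)) (hY : FromPowers T.W P Y) :
    (hodgePred T).sp Y ≤ S.C Y := by
  obtain ⟨r, m, a, b, u, v, huv, hid⟩ := hY
  intro c hc
  rw [← hid c]
  refine Submodule.sum_mem _ fun i _ => ?_
  have hu : T.W.corr (T.W.cl _ (u i)) c ∈ (hodgePred T).sp (pw P (m i)) := by
    have h1 : T.W.corr (T.W.cl _ (u i)) ∈ (hodgePred T).sys.Op Y (pw P (m i)) :=
      Sys.Op.corr (ClassPred.alg_le (Q := hodgePred T) (cl_mem_alg (huv i).1))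
    exact Sys.Op.apply (fun _ => le_rfl) h1 hc
  have h2 := h (m i) hu
  have h3 : T.W.corr (T.W.cl _ (v i)) ∈ S.Op (pw P (m i)) Y :=
    Sys.Op.corr (hcyc _ _ _ (huv i).2)
  exact Sys.Op.apply (fun _ => le_rfl) h3 h2

lemma nontrivial_X {φ : LinearMap.BilinForm T.W.K (T.W.H X)} {r : ℕ} {a : T.W.K}
    (h : K3A T X φ r a) : Nontrivial (T.W.H X) := by
  by_contra hn
  rw [not_nontrivial_iff_subsingleton] at hn
  obtain ⟨v, hv, -⟩ := finrank_eq_one_iff'.1 h.one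
  apply hv
  apply Subtype.ext
  change (v : ℂ ⊗[T.W.K] T.W.H X) = 0
  refine Pool.Agent.N996.BP.tmul_ind (P := fun x : ℂ ⊗[T.W.K] T.W.H X => x = 0) ?_ ?_ _
  · intro z x
    rw [Subsingleton.elim x 0, TensorProduct.tmul_zero]
  · intro x y hx hy; rw [hx, hy, add_zero]

end AH

section AHS

variable {T : HodgeTheory ops} {X A Y : 𝒱.Obj}

lemma nontrivial_A (hA : OfAbelianType T A) (h0 : 0 < A.dim) : Nontrivial (T.W.H A) := by
  have h1 : 0 < finrank T.W.K (T.W.gr A 1) := by rw [hA.2]; omega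
  have h2 : Nontrivial (T.W.gr A 1) := Module.nontrivial_of_finrank_pos h1
  obtain ⟨x, hx⟩ := exists_ne (0 : T.W.gr A 1)
  exact ⟨⟨x, 0, fun h => hx (Subtype.ext h)⟩⟩

/-! ### The generated classes -/

section Gen

variable {κ : T.W.H ((X.prod A).prod A)} {r : ℕ}

lemma Gen.mem_sp (hκ : IsHodge T ((X.prod A).prod A) (r + 1) κ) {c : T.W.H Y}
    (h : Gen T X A κ Y c) : c ∈ (hodgePred (toH T)).sp Y := by
  induction h with
  | kuga => exact ClassPred.sp_of (Q := hodgePred (toH T)) hκ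
  | hodge _ h => exact ClassPred.sp_of (Q := hodgePred (toH T)) h
  | cyc h =>
    obtain ⟨z, hz, rfl⟩ := h
    exact ClassPred.alg_le (Q := hodgePred (toH T)) (cl_mem_alg hz)
  | add _ _ ih ih' => exact Submodule.add_mem _ ih ih'
  | mul _ _ ih ih' => exact (hodgePred (toH T)).sys.mul ih ih'
  | pull f _ ih => exact (hodgePred (toH T)).sys.map f ih
  | push f _ ih => exact (hodgePred (toH T)).sys.push f ih

lemma Gen.one (Y : 𝒱.Obj) : Gen T X A κ Y 1 :=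
  Gen.cyc ⟨Y.V.fundCycle, Y.V.fundCycle_mem, T.W.cl_fund Y⟩

lemma Gen.zero (Y : 𝒱.Obj) : Gen T X A κ Y 0 :=
  Gen.cyc (j := 0) ⟨0, SmVar.IsCyc.zero _ _, map_zero _⟩

lemma Gen.smul (r : T.W.K) {c : T.W.H Y} (hc : Gen T X A κ Y c) : Gen T X A κ Y (r • c) := by
  obtain ⟨q, rfl⟩ := T.rat r
  have h1 : Gen T X A κ Y ((q : T.W.K) • 1) :=
    Gen.cyc ⟨q • Y.V.fundCycle, SmVar.IsCyc.smul q Y.V.fundCycle_mem, by
      rw [T.W.cl_smul, T.W.cl_fund]⟩
  have h2 := Gen.mul h1 hc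
  rwa [smul_one_mul] at h2

/-- The system of the generated classes. -/
noncomputable def genSys (hκ : IsHodge T ((X.prod A).prod A) (r + 1) κ) : Sys T.W where
  C Y :=
    { carrier := {c | Gen T X A κ Y c}
      add_mem' := fun ha hb => Gen.add ha hb
      zero_mem' := Gen.zero Y
      smul_mem' := fun r _ hc => Gen.smul r hc }
  even hc := ClassPred.sp_even (Q := hodgePred (toH T)) (Gen.mem_sp hκ hc)
  one Y := Gen.one Y
  mul ha hb := Gen.mul ha hb
  map f _ hc := Gen.pull f hc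
  push f _ hc := Gen.push f hc

end Gen

/-! ### The theorems -/

section Main

variable {φ : RForm T.W X} {ψ : RForm T.W A} {r : ℕ} {D : A.Cycles}
  {κ : T.W.H ((X.prod A).prod A)}

/-- **The theorem for families of classes.** -/
theorem main_S (hφ : IsPolarisation T X φ) (hX : OfK3Type T X φ r)
    (hψ : IsPolarisation T A ψ) (hA : OfAbelianType T A) (h0 : 0 < A.dim)
    (hD : GivenByDivisor T A ψ D) (hκ : IsKugaSatake T X A r D κ)
    {S : Sys (toH T).W} (hS : ∀ Y, S.C Y ≤ (hodgePred (toH T)).sp Y)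
    (hSX : (hodgePred (toH T)).sp X ≤ S.C X)
    (hSA : ∀ c, IsHodge T (A.prod A) 1 c → c ∈ S.C (A.prod A))
    (hSκ : κ ∈ S.C ((X.prod A).prod A))
    (hcyc : ∀ (Y : 𝒱.Obj) (j : ℕ) (z : Y.Cycles), Y.IsCyc j z → T.W.cl Y z ∈ S.C Y)
    (hY : Dominated T.W X A Y) : (hodgePred (toH T)).sp Y ≤ S.C Y := by
  obtain ⟨a, hK3⟩ := hX.k3a hφ
  obtain ⟨hD1, a', hd⟩ := hD
  obtain ⟨hκh, c, hc, hcl⟩ := hκ
  have hnX : Nontrivial ((toH T).W.H X) := nontrivial_X hK3
  have hnA : Nontrivial ((toH T).W.H A) := nontrivial_A hA h0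
  have h1 := main_AH (T := toH T) (κ := κ) (κ' := κ) (δ := T.W.cl A D) (S := S) hX.1 hK3
    hψ.toBP.isPHS hA.1 h0 hnX hnA (T.cyc A 1 D hD1) hd hκh hc
    (fun t ht v hv => hcl t (isTranscendental_iff.2 ht) v hv) hκh
    (fun t ht v hv => rfl) hS hSX hSA hSκ
  have h2 : FromPowers T.W (X.prod A) Y := by
    rcases hY with hY | hY
    · exact hY.fromPowers hnX hnA
    · exact hY
  exact from_le (T := toH T) hcyc h1 h2

/-- **Generation of the Hodge classes.** -/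
theorem gen_all (hφ : IsPolarisation T X φ) (hX : OfK3Type T X φ r)
    (hψ : IsPolarisation T A ψ) (hA : OfAbelianType T A) (h0 : 0 < A.dim)
    (hD : GivenByDivisor T A ψ D) (hκ : IsKugaSatake T X A r D κ)
    (hY : Dominated T.W X A Y) {j : ℕ} {c : T.W.H Y} (hc : IsHodge T Y j c) :
    Gen T X A κ Y c :=
  main_S hφ hX hψ hA h0 hD hκ (S := genSys hκ.1)
    (fun _ _ hc => Gen.mem_sp hκ.1 hc)
    (fun c hc => by
      refine ClassPred.sp_ind (Q := hodgePred (toH T)) (q := fun c => Gen T X A κ X c)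
        ?_ ?_ ?_ hc
      · intro j x hx; exact Gen.hodge (Or.inl rfl) hx
      · exact Gen.zero X
      · intro a b ha hb; exact Gen.add ha hb)
    (fun _ hc => Gen.hodge (Or.inr ⟨rfl, rfl⟩) hc) Gen.kuga
    (fun _ _ z hz => Gen.cyc ⟨z, hz, rfl⟩) hY
    (ClassPred.sp_of (Q := hodgePred (toH T)) hc)

lemma hodgeFor_iff : HodgeFor T Y ↔ (hodgePred (toH T)).sp Y ≤ (algSys T.W).C Y :=
  (show HodgeFor T Y ↔ HodgeConjecture T Y from Iff.rfl).trans
    (hodgeConjecture_BP.trans Pool.Agent.N996.BP.hodgeConjecture_iff)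

/-- **The Hodge conjecture.** -/
theorem hodge_all (hφ : IsPolarisation T X φ) (hX : OfK3Type T X φ r)
    (hψ : IsPolarisation T A ψ) (hA : OfAbelianType T A) (h0 : 0 < A.dim)
    (hD : GivenByDivisor T A ψ D) (hκ : IsKugaSatake T X A r D κ)
    (hHX : HodgeFor T X) (hHA : HodgeIn T (A.prod A) 1)
    (hHκ : IsAlgebraic T ((X.prod A).prod A) (r + 1) κ) (hY : Dominated T.W X A Y) :
    HodgeFor T Y := by
  obtain ⟨z, hz, hz'⟩ := hHκ
  rw [hodgeFor_iff] at hHX ⊢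
  exact main_S hφ hX hψ hA h0 hD hκ (S := algSys T.W)
    (fun _ => ClassPred.alg_le (Q := hodgePred (toH T))) hHX
    (fun c hc => by
      obtain ⟨w, hw, rfl⟩ := hHA c hc
      exact cl_mem_alg hw) (hz' ▸ cl_mem_alg hz) (fun _ _ _ hz => cl_mem_alg hz) hY

/-- The push-forward along the projection `(X × A) × A → A × A`. -/
lemma push_rho {W : WeilCohomology.{u, 0} ops} {X A B : 𝒱.Obj} (x : W.H X) :
    W.push (Obj.lift (fst (X.prod A) B ≫ snd X A) (snd (X.prod A) B))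
      (W.map (fst (X.prod A) B) (W.map (fst X A) x)) = W.tr X x • 1 := by
  apply W.tr_ext
  intro c
  rw [W.tr_push, smul_one_mul, map_smul]
  refine xp_induction (p := fun c => W.tr ((X.prod A).prod B)
    (W.map (fst (X.prod A) B) (W.map (fst X A) x) *
      W.map (Obj.lift (fst (X.prod A) B ≫ snd X A) (snd (X.prod A) B)) c) =
        W.tr X x • W.tr (A.prod B) c) ?_ ?_ c
  · intro a b ha hb
    rw [map_add, mul_add, map_add, ha, hb, map_add, smul_add]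
  · intro _ _ a _ b _
    have h1 : W.map (Obj.lift (fst (X.prod A) B ≫ snd X A) (snd (X.prod A) B)) (xp W a b) =
        W.map (fst (X.prod A) B) (W.map (snd X A) a) * W.map (snd (X.prod A) B) b := by
      rw [xp, map_mul, ← W.map_comp, ← W.map_comp, Obj.lift_fst, Obj.lift_snd, W.map_comp]
    have h2 : W.map (fst (X.prod A) B) (W.map (fst X A) x) *
        (W.map (fst (X.prod A) B) (W.map (snd X A) a) * W.map (snd (X.prod A) B) b) =
          xp W (xp W x a) b := by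
      rw [← mul_assoc, ← map_mul]
      rfl
    rw [h1, h2, tr_xp, tr_xp, tr_xp, smul_eq_mul, mul_assoc]

lemma hodgeIn_square {T : Pool.Agent.Y121.AH.HodgeTheory ops} {X A : 𝒱.Obj} {r : ℕ}
    (hX : X.dim = 2 * r) (hnX : Nontrivial (T.W.H X))
    (h : ∀ c, Pool.Agent.Y121.AH.IsHodge T ((X.prod A).prod A) (r + 1) c →
      c ∈ (algSys T.W).C ((X.prod A).prod A)) (c : T.W.H (A.prod A))
    (hc : Pool.Agent.Y121.AH.IsHodge T (A.prod A) 1 c) : c ∈ (algSys T.W).C (A.prod A) := by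
  obtain ⟨E, hE⟩ := T.dec.polar X
  have hE1 : Pool.Agent.Y121.AH.IsHodge T X 1 (T.W.cl X E) :=
    Pool.Agent.Y121.AH.IsHodge.cl hE.1
  have h1 : (1 : T.W.H X) ∈ T.W.gr X (2 * 0) := T.W.one_mem X
  have h2 : Pool.Agent.Y121.AH.IsHodge T X 0 (1 : T.W.H X) := by
    rw [← T.W.cl_fund X]; exact Pool.Agent.Y121.AH.IsHodge.cl X.V.fundCycle_mem
  have h3 : T.W.cl X E ^ (X.dim - 2 * 0 + 1) * (1 : T.W.H X) = 0 := by
    have h4 := (hE1.pow (X.dim - 2 * 0 + 1)).1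
    rw [T.W.gr_eq_bot X _ (by omega)] at h4
    rw [(Submodule.mem_bot _).1 h4, zero_mul]
  obtain ⟨q, hq, h4⟩ := hE.2.2 0 (by omega) 1 h1 h2.2 h3 one_ne_zero
  rw [pow_zero, one_mul, mul_one, mul_one, mul_zero, Nat.sub_zero, hX, two_mul, pow_add] at h4
  have hq0 : (q : T.W.K) ≠ 0 := by exact_mod_cast hq.ne'
  have h5 := hE1.pow r
  rw [one_mul] at h5
  have h6 : T.W.cl X E ^ r ∈ (algSys T.W).C X :=
    KG.pow_mem (S := algSys T.W) (cl_mem_alg hE.1) _
  obtain ⟨ρ, hρ⟩ : ∃ ρ, ρ = Obj.lift (fst (X.prod A) A ≫ snd X A) (snd (X.prod A) A) :=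
    ⟨_, rfl⟩
  have h7 := h _ (((h5.map (fst X A)).map (fst (X.prod A) A)).mul (hc.map ρ))
  have h8 := (algSys T.W).push ρ ((algSys T.W).mul
    ((algSys T.W).map (fst (X.prod A) A) ((algSys T.W).map (fst X A) h6)) h7)
  rw [← mul_assoc, ← map_mul (T.W.map (fst (X.prod A) A)), ← map_mul (T.W.map (fst X A)),
    T.W.push_mul, hρ, push_rho, h4, smul_one_mul] at h8
  have h9 := Submodule.smul_mem _ (q : T.W.K)⁻¹ h8
  rwa [smul_smul, inv_mul_cancel₀ hq0, one_smul] at h9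

/-- **The equivalence.** -/
theorem hodge_iff (hφ : IsPolarisation T X φ) (hX : OfK3Type T X φ r)
    (hψ : IsPolarisation T A ψ) (hA : OfAbelianType T A) (h0 : 0 < A.dim)
    (hD : GivenByDivisor T A ψ D) (hκ : IsKugaSatake T X A r D κ) :
    (∀ Y : 𝒱.Obj, Dominated T.W X A Y → HodgeFor T Y) ↔
      HodgeFor T X ∧ HodgeIn T (A.prod A) 1 ∧
        IsAlgebraic T ((X.prod A).prod A) (r + 1) κ := by
  constructor
  · intro h
    exact ⟨h X (Or.inl ProductOf.left), h _ (Or.inl (ProductOf.prod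
      ProductOf.right ProductOf.right)) 1, h ((X.prod A).prod A) (Or.inl (ProductOf.prod
      (ProductOf.prod ProductOf.left ProductOf.right) ProductOf.right)) (r + 1) κ hκ.1⟩
  · rintro ⟨h1, h2, h3⟩ Y hY
    exact hodge_all hφ hX hψ hA h0 hD hκ h1 h2 h3 hY

/-- **The equivalence, second form.** -/
theorem hodge_iff' (hφ : IsPolarisation T X φ) (hX : OfK3Type T X φ r)
    (hψ : IsPolarisation T A ψ) (hA : OfAbelianType T A) (h0 : 0 < A.dim)
    (hD : GivenByDivisor T A ψ D) (hκ : IsKugaSatake T X A r D κ) :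
    (∀ Y : 𝒱.Obj, Dominated T.W X A Y → HodgeFor T Y) ↔
      HodgeFor T X ∧ HodgeIn T ((X.prod A).prod A) (r + 1) := by
  constructor
  · intro h
    exact ⟨h X (Or.inl ProductOf.left), h _ (Or.inl (ProductOf.prod (ProductOf.prod
      ProductOf.left ProductOf.right) ProductOf.right)) _⟩
  · rintro ⟨h1, h2⟩
    obtain ⟨a, hK3⟩ := hX.k3a hφ
    refine (hodge_iff hφ hX hψ hA h0 hD hκ).2 ⟨h1, fun c hc => ?_, h2 κ hκ.1⟩
    have h3 := hodgeIn_square (T := toH T) hX.1 (nontrivial_X hK3) (fun c hc => by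
      obtain ⟨z, hz, rfl⟩ := h2 c hc
      exact cl_mem_alg hz) c hc
    exact exists_cyc' T _ 1 c h3 hc.1

end Main

end AHS

end Run7.h38.KF
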