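import Pool.Agent.Run7.h38.KF.Defs
import Pool.Agent.Run7.h38.KG.CT2
import Pool.Agent.N996.FP.Fin2

/-!
# Comparison of the definitions
-/

set_option linter.unusedSectionVars false

open CategoryTheory AlgebraicGeometry TensorProduct

universe u

namespace Run7.h38.KF

open Module
open Pool.Agent.H914 Pool.Agent.H914.VarClass Pool.Agent.H914.VarClass.Obj
  Pool.Agent.H914.WeilCohomology
open Pool.Agent.Y121.AHS
open Pool.Agent.Y133.Half (pw ClassPred Sys PH xp)
open Pool.Agent.Y121.AH (hodgePred CW em em_zero)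
open Pool.Agent.N996.BP (IsPHS)
open Pool.Agent.N996.BP.Geo
open Pool.Agent.N996.FP
open Run7.h38.KG (tc mem_tc K3A KSA)

variable {k : Type u} [Field k] {𝒱 : VarClass k} {ops : CycleOps 𝒱} {T : HodgeTheory ops}
  {X A : 𝒱.Obj}

set_option maxHeartbeats 400000

/-- The transcendental classes. -/
lemma tc_iff {T : Pool.Agent.Y121.AH.HodgeTheory ops} {X : 𝒱.Obj} {x : T.W.H X} :
    (∀ (j : ℕ) (y : T.W.H X), Pool.Agent.Y121.AH.IsHodge T X j y → T.W.tr X (x * y) = 0) ↔
      x ∈ tc T X := by
  rw [mem_tc]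
  constructor
  · intro h y hy
    refine ClassPred.sp_ind (Q := hodgePred T) (q := fun y => T.W.tr X (x * y) = 0)
      ?_ ?_ ?_ hy
    · intro j y hy; exact h j y hy
    · rw [mul_zero, map_zero]
    · intro a b ha hb; rw [mul_add, map_add, ha, hb, add_zero]
  · intro h j y hy
    exact h y (ClassPred.sp_of (Q := hodgePred T) (j := j) hy)

lemma isTranscendental_iff {x : T.W.H X} : IsTranscendental T X x ↔ x ∈ tc (toH T) X :=
  tc_iff (T := toH T)

/-- The classes in the degrees different from the middle degree. -/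
lemma inv_of_deg {T : Pool.Agent.Y121.AH.HodgeTheory ops} {X : 𝒱.Obj} {r : ℕ}
    (h : ∀ p q : ℤ, Fx T X (p, q) ≠ ⊥ →
      p = q ∨ (p = r + 1 ∧ q = r - 1) ∨ (p = r - 1 ∧ q = r + 1)) {j : ℕ} (hj : j ≠ 2 * r)
    {b : T.W.H X} (hb : b ∈ T.W.gr X j) : b ∈ (hodgePred T).sp X := by
  rw [← inv_iff]
  intro t _
  refine Submodule.iSup_induction (fun r : {r : ℤ × ℤ // r.1 + r.2 = j} => T.pq X r.1.1 r.1.2)
    (motive := fun x => lop T t X x = x) (T.dec.span hb) ?_ ?_ ?_
  · rintro ⟨⟨p, q⟩, hr⟩ x hx
    have hr' : p + q = j := hr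
    by_cases h0 : Fx T X (p, q) = ⊥
    · have h1 : (show ℂ ⊗[T.W.K] T.W.H X from x) ∈ Fx T X (p, q) := hx
      rw [h0] at h1
      have h2 : (show ℂ ⊗[T.W.K] T.W.H X from x) = 0 := (Submodule.mem_bot ℂ).1 h1
      have h3 : x = 0 := h2
      rw [h3, map_zero]
    · have h1 : p = q := by
        rcases h p q h0 with h2 | ⟨h2, h3⟩ | ⟨h2, h3⟩
        · exact h2
        · exfalso; omega
        · exfalso; omega
      subst h1
      have h2 := lop_pq (T := T) (t := t) (p := p) (q := p) hx
      rw [h2, sub_self, zpow_zero, one_smul]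
  · rw [map_zero]
  · intro x y hx hy; rw [map_add, hx, hy]

/-- The transcendental classes are in the middle degree. -/
lemma tc_deg {T : Pool.Agent.Y121.AH.HodgeTheory ops} {X : 𝒱.Obj} {r : ℕ}
    (hdim : X.dim = 2 * r)
    (h : ∀ p q : ℤ, Fx T X (p, q) ≠ ⊥ →
      p = q ∨ (p = r + 1 ∧ q = r - 1) ∨ (p = r - 1 ∧ q = r + 1)) {x : T.W.H X}
    (hx : x ∈ tc T X) : x ∈ T.W.gr X (2 * r) := by
  have h1 : ∀ i, i ≠ 2 * r → proj (T.W.isInternal X) i x = 0 := by
    intro i hi
    apply T.W.nondeg
    intro b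
    refine gr_induction (T.W.isInternal X)
      (p := fun b => T.W.tr X (proj (T.W.isInternal X) i x * b) = 0) ?_ ?_ b
    · intro j b hb
      by_cases hij : i + j = 2 * X.dim
      · have h2 : T.W.tr X (proj (T.W.isInternal X) i x * b) = T.W.tr X (x * b) := by
          have h3 : ∀ y : T.W.H X, T.W.tr X (proj (T.W.isInternal X) i y * b) =
              T.W.tr X (y * b) := by
            intro y
            refine gr_induction (T.W.isInternal X) (p := fun y =>
              T.W.tr X (proj (T.W.isInternal X) i y * b) = T.W.tr X (y * b)) ?_ ?_ y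
            · intro l y hy
              by_cases hl : l = i
              · subst hl; rw [proj_same _ hy]
              · rw [proj_ne _ hy hl, zero_mul, map_zero,
                  T.W.tr_eq_zero (T.W.mul_mem hy hb) (by omega)]
            · intro y z hy hz
              rw [map_add, add_mul, add_mul, map_add, map_add, hy, hz]
          exact h3 x
        rw [h2]
        exact mem_tc.1 hx b (inv_of_deg h (by omega) hb)
      · exact T.W.tr_eq_zero (T.W.mul_mem (proj_mem _ _ _) hb) hij
    · intro b c hb hc; rw [mul_add, map_add, hb, hc, add_zero]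
  have h2 : x = ∑ i ∈ Finset.range (2 * X.dim + 1), proj (T.W.isInternal X) i x := by
    refine gr_induction (T.W.isInternal X) (p := fun c =>
      c = ∑ i ∈ Finset.range (2 * X.dim + 1), proj (T.W.isInternal X) i c) ?_ ?_ x
    · intro j c hc
      by_cases hj : j < 2 * X.dim + 1
      · rw [Finset.sum_eq_single j, proj_same _ hc]
        · intro i _ hi; rw [proj_ne _ hc (Ne.symm hi)]
        · intro h; exact absurd (Finset.mem_range.2 hj) h
      · rw [T.W.gr_eq_bot X j (by omega)] at hc
        rw [(Submodule.mem_bot _).1 hc]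
        simp
    · intro a b ha hb
      conv_lhs => rw [ha, hb]
      rw [← Finset.sum_add_distrib]
      exact Finset.sum_congr rfl fun i _ => by rw [map_add]
  rw [h2, Finset.sum_eq_single (2 * r) (fun i _ hi => h1 i hi)
    (fun h => absurd (Finset.mem_range.2 (by omega)) h)]
  exact proj_mem _ _ _

/-- The conversion of the varieties of type K3. -/
lemma OfK3Type.k3a {φ : RForm T.W X} {r : ℕ} (h : OfK3Type T X φ r)
    (hφ : IsPolarisation T X φ) : ∃ a : T.W.K, K3A (toH T) X
      (show LinearMap.BilinForm T.W.K (T.W.H X) from φ) r a := by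
  obtain ⟨hdim, ⟨hone, htyp⟩, a, ha, h1⟩ := h
  refine ⟨a, hφ.toBP.isPHS, fun x hx => tc_deg (T := toH T) hdim htyp hx, htyp, hone,
    fun x hx y hy => ?_, ha⟩
  exact h1 x y (isTranscendental_iff.2 hx) (isTranscendental_iff.2 hy)

/-- The class of the multiplication. -/
noncomputable def gam (W : WeilCohomology.{u, 0} ops) {X A : 𝒱.Obj} (δ : W.H A)
    (κ : W.H ((X.prod A).prod A)) : W.H ((X.prod A).prod A) :=
  κ * W.map (fst (X.prod A) A) (W.map (snd X A) δ)

lemma gam_corr (W : WeilCohomology.{u, 0} ops) {X A : 𝒱.Obj} {δ : W.H A} (hδ : δ ∈ PH W A 0)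
    (κ : W.H ((X.prod A).prod A)) (t : W.H X) (v : W.H A) :
    W.corr (gam W δ κ) (xp W t v) = W.corr κ (xp W t (δ * v)) := by
  rw [corr_apply, corr_apply, gam, xp, xp, map_mul (W.map (snd X A)), mul_assoc,
    map_mul (W.map (fst (X.prod A) A)), map_mul (W.map (fst (X.prod A) A)),
    map_mul (W.map (fst (X.prod A) A))]
  congr 2
  rw [← mul_assoc, ← mul_assoc, PH.even_comm (PH.map _ (PH.map _ hδ))]

lemma kmul_eq (D : A.Cycles) (κ : T.W.H ((X.prod A).prod A)) (t : T.W.H X) (v : T.W.H A) :
    kmul T.W D κ t v = T.W.corr κ (xp T.W t (T.W.cl A D ^ (A.dim - 1) * v)) := rfl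

end Run7.h38.KF
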