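import Pool.Agent.N996.FP.Defs

/-!
# Varieties of type K3, Kuga-Satake classes and generated classes: definitions

In the intended use the varieties are the smooth projective ones over the field of complex numbers
and `T` is the theory `X ↦ H(X, ℚ)`.
-/

open CategoryTheory AlgebraicGeometry

universe u

namespace Run7.h38.KF

open Pool.Agent.H914 Pool.Agent.H914.VarClass Pool.Agent.H914.VarClass.Obj
  Pool.Agent.H914.WeilCohomology
open Pool.Agent.Y121.AHS
open Pool.Agent.N996.FP
open Pool.Agent.N996.BP (Bil)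

section Algebra

variable {K A B C : Type} [Field K] [Ring A] [Algebra K A] [Ring B] [Algebra K B] [Ring C]
  [Algebra K C]

/-- The element `x` is orthogonal to the elements with the property `P` for the form `tr(x y)`. -/
def Orth (tr : A →ₗ[K] K) (P : A → Prop) (x : A) : Prop := ∀ y, P y → tr (x * y) = 0

/-- The bilinear form `φ` is a nonzero multiple of `tr(x y)` on the elements with the
property `P`. -/
def IsTraceForm (tr : A →ₗ[K] K) (P : A → Prop) (φ : Bil K A) : Prop :=
  ∃ a : K, a ≠ 0 ∧ ∀ x y, P x → P y → φ x y = a * tr (x * y)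

/-- The bilinear form `ψ` is a multiple of `tr(δ ^ e x y)` on the subspace `V`. -/
def IsTwistedTraceForm (tr : A →ₗ[K] K) (V : Submodule K A) (δ : A) (e : ℕ) (ψ : Bil K A) :
    Prop :=
  ∃ a : K, ∀ x ∈ V, ∀ y ∈ V, ψ x y = a * tr (δ ^ e * x * y)

/-- The product `f(t) g(δ ^ e v)`. -/
def twistedProduct (f : A →ₐ[K] C) (g : B →ₐ[K] C) (δ : B) (e : ℕ) (t : A) (v : B) : C :=
  f t * g (δ ^ e * v)

/-- The multiplication `m` of elements of the subspace `V` by the elements `t` with the property `P`
is a Clifford multiplication for a nonzero multiple of the form `tr(t t)`. -/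
def IsClifford (tr : A →ₗ[K] K) (P : A → Prop) (V : Submodule K B) (m : A → B → B) : Prop :=
  ∃ c : K, c ≠ 0 ∧ ∀ t, P t → ∀ v ∈ V, m t (m t v) = (c * tr (t * t)) • v

/-- The Hodge numbers are of type K3: the space `pq (r + 1) (r - 1)` has dimension one, and all
other spaces `pq p q` with `p ≠ q`, except for `pq (r - 1) (r + 1)`, are zero. -/
def K3Numbers {V : Type} [AddCommGroup V] [Module ℂ V] (pq : ℤ → ℤ → Submodule ℂ V) (r : ℕ) :
    Prop :=
  Module.finrank ℂ (pq (r + 1) (r - 1)) = 1 ∧
    ∀ p q : ℤ, pq p q ≠ ⊥ → p = q ∨ (p = r + 1 ∧ q = r - 1) ∨ (p = r - 1 ∧ q = r + 1)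

end Algebra

variable {k : Type u} [Field k] {𝒱 : VarClass k} {ops : CycleOps 𝒱}

/-- The rational class `x` on `X` is transcendental: `tr(x y) = 0` for all Hodge classes `y`. -/
def IsTranscendental (T : HodgeTheory ops) (X : 𝒱.Obj) (x : T.W.H X) : Prop :=
  ∀ j : ℕ, Orth (T.W.tr X) (IsHodge T X j) x

/-- The variety `X` of dimension `2 r` is of type K3: the space `H^(r+1,r-1)(X)` has dimension one,
all other spaces `H^(p,q)(X)` with `p ≠ q`, except for `H^(r-1,r+1)(X)`, are zero, and the
polarisation `φ` of `H(X)` is a multiple of `tr(x y)` on the transcendental classes. (Examples are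
the K3 surfaces and the cubic fourfolds.) -/
def OfK3Type (T : HodgeTheory ops) (X : 𝒱.Obj) (φ : RForm T.W X) (r : ℕ) : Prop :=
  X.dim = 2 * r ∧ K3Numbers (T.pq X) r ∧ IsTraceForm (T.W.tr X) (IsTranscendental T X) φ

/-- The rational bilinear form `ψ` on `H(A)` is given by the divisor `D` on `H^1(A)`:
`ψ(x, y) = a tr(D ^ (dim A - 1) x y)`. -/
def GivenByDivisor (T : HodgeTheory ops) (A : 𝒱.Obj) (ψ : RForm T.W A) (D : A.Cycles) : Prop :=
  A.IsCyc 1 D ∧ IsTwistedTraceForm (T.W.tr A) (T.W.gr A 1) (T.W.cl A D) (A.dim - 1) ψ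

/-- The multiplication of classes on `A` by classes on `X` given by the class `κ` on
`(X × A) × A` and the divisor `D` on `A`: the class `t` maps `v` to
`pr₃_* (κ · pr₁^* t · pr₂^* (D ^ (dim A - 1) v))`. -/
noncomputable def kmul (W : WeilCohomology.{u, 0} ops) {X A : 𝒱.Obj} (D : A.Cycles)
    (κ : W.H ((X.prod A).prod A)) (t : W.H X) (v : W.H A) : W.H A :=
  ap (W.corr κ) (twistedProduct (W.map (fst X A)) (W.map (snd X A)) (W.cl A D) (A.dim - 1) t v)

/-- The class `κ` on `(X × A) × A` is a Kuga-Satake class: it is a Hodge class of degree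
`2 (r + 1)`, and it defines a Clifford multiplication of the space `H^1(A)` by the transcendental
classes on `X`: the square of the multiplication by `t` is the multiplication by the number
`c tr(t t)`, where `c ≠ 0` is a constant. -/
def IsKugaSatake (T : HodgeTheory ops) (X A : 𝒱.Obj) (r : ℕ) (D : A.Cycles)
    (κ : T.W.H ((X.prod A).prod A)) : Prop :=
  IsHodge T ((X.prod A).prod A) (r + 1) κ ∧
    IsClifford (T.W.tr X) (IsTranscendental T X) (T.W.gr A 1) (kmul T.W D κ)

/-- The class `c` is the class of an algebraic cycle of codimension `j` on `Y`. -/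
def IsAlgebraic (T : HodgeTheory ops) (Y : 𝒱.Obj) (j : ℕ) (c : T.W.H Y) : Prop :=
  ∃ z, Y.IsCyc j z ∧ T.W.cl Y z = c

/-- The Hodge conjecture for `Y` in codimension `j`: every Hodge class of degree `2 j` on `Y` is
the class of an algebraic cycle. -/
def HodgeIn (T : HodgeTheory ops) (Y : 𝒱.Obj) (j : ℕ) : Prop :=
  ∀ c : T.W.H Y, IsHodge T Y j c → IsAlgebraic T Y j c

/-- The Hodge conjecture for `Y`. -/
def HodgeFor (T : HodgeTheory ops) (Y : 𝒱.Obj) : Prop := ∀ j : ℕ, HodgeIn T Y j

/-- The classes generated by the class `κ`, by the Hodge classes on `X`, by the Hodge classes of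
degree two on `A × A` and by the classes of algebraic cycles: the smallest system of classes on all
varieties which contains these classes and is stable under sums, cup products, pull-backs and
push-forwards. (It is stable under linear combinations, since the multiples of the unit are classes
of cycles.) -/
inductive Gen (T : HodgeTheory ops) (X A : 𝒱.Obj) (κ : T.W.H ((X.prod A).prod A)) :
    ∀ Y : 𝒱.Obj, T.W.H Y → Prop
  | kuga : Gen T X A κ ((X.prod A).prod A) κ
  | hodge {Y : 𝒱.Obj} {j : ℕ} {c : T.W.H Y} : Y = X ∨ (Y = A.prod A ∧ j = 1) →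
      IsHodge T Y j c → Gen T X A κ Y c
  | cyc {Y : 𝒱.Obj} {j : ℕ} {c : T.W.H Y} : IsAlgebraic T Y j c → Gen T X A κ Y c
  | add {Y : 𝒱.Obj} {c d : T.W.H Y} : Gen T X A κ Y c → Gen T X A κ Y d → Gen T X A κ Y (c + d)
  | mul {Y : 𝒱.Obj} {c d : T.W.H Y} : Gen T X A κ Y c → Gen T X A κ Y d → Gen T X A κ Y (c * d)
  | pull {Y Z : 𝒱.Obj} (f : Y ⟶ Z) {c : T.W.H Z} : Gen T X A κ Z c →
      Gen T X A κ Y (pull T.W f c)
  | push {Y Z : 𝒱.Obj} (f : Y ⟶ Z) {c : T.W.H Y} : Gen T X A κ Y c →
      Gen T X A κ Z (push T.W f c)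

/-- `Y` is a product of copies of `X` and `A`. -/
inductive ProductOf (X A : 𝒱.Obj) : 𝒱.Obj → Prop
  | left : ProductOf X A X
  | right : ProductOf X A A
  | prod {Y Z : 𝒱.Obj} : ProductOf X A Y → ProductOf X A Z → ProductOf X A (Y.prod Z)

/-- `Y` is a product of copies of `X` and `A`, or the cohomology of `Y` comes from powers of
`X × A` by algebraic correspondences. -/
def Dominated (W : WeilCohomology.{u, 0} ops) (X A Y : 𝒱.Obj) : Prop :=
  ProductOf X A Y ∨ FromPowers W (X.prod A) Y

end Run7.h38.KF
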